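import Mathlib

/-!
# Cocycles modulo four with values in a quadratic twist

A locally constant map `c : Gal(Ω/k) → ℤ/4` with `c(στ) = c(σ) ± c(τ)`, the sign being that of
`σ` on a square root `r` of `m`, whose double is the quadratic character of a square root `s` of
`δ`, gives a nontrivial solution of `x² = δ (y² + m z²)`.
-/

set_option autoImplicit false
set_option maxHeartbeats 400000

namespace Pool.Agent.K3h59.DM

theorem z4_cases : ∀ a : ZMod 4, 2 * a = 0 → a = 0 ∨ a = 2 := by decide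

theorem z4_sub : ∀ a b : ZMod 4, 2 * b = 0 → a - b = a + b := by decide

theorem z4_two : ∀ a : ZMod 4, 2 * a ≠ 0 → 2 * a = 2 := by decide

theorem z4_zero : ∀ a b : ZMod 4, 2 * b = 0 → 0 = a + b → a = b := by decide

theorem z4_22 : (2 : ZMod 4) + 2 = 0 := by decide

theorem z4_tt : 2 * (2 : ZMod 4) = 0 := by decide

section

variable {k Ω : Type} [Field k] [Field Ω] [Algebra k Ω]

/-- the data -/
structure Cc (r s : Ω) (c : (Ω ≃ₐ[k] Ω) → ZMod 4) : Prop where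
  lc : IsLocallyConstant c
  pos : ∀ σ τ, σ r = r → c (σ * τ) = c σ + c τ
  neg : ∀ σ τ, σ r = -r → c (σ * τ) = c σ - c τ
  two : ∀ σ, (2 * c σ = 0 ↔ σ s = s)
  rpm : ∀ σ : Ω ≃ₐ[k] Ω, σ r = r ∨ σ r = -r
  spm : ∀ σ : Ω ≃ₐ[k] Ω, σ s = s ∨ σ s = -s
  r0 : r ≠ 0
  s0 : s ≠ 0

variable {r s : Ω} {c : (Ω ≃ₐ[k] Ω) → ZMod 4}

theorem Cc.add2 (h : Cc r s c) (σ τ : Ω ≃ₐ[k] Ω) (hτ : τ s = s) : c (σ * τ) = c σ + c τ := by
  rcases h.rpm σ with h1 | h1
  · exact h.pos σ τ h1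
  · rw [h.neg σ τ h1]
    exact z4_sub _ _ ((h.two τ).2 hτ)

theorem Cc.one (h : Cc r s c) : c 1 = 0 := by
  have h1 := h.pos 1 1 rfl
  rw [mul_one] at h1
  have : ∀ a : ZMod 4, a = a + a → a = 0 := by decide
  exact this _ h1

theorem inv_s {σ : Ω ≃ₐ[k] Ω} {x : Ω} (h : σ x = x) : σ⁻¹ x = x := by
  conv_lhs => rw [← h]
  rw [← AlgEquiv.mul_apply, inv_mul_cancel, AlgEquiv.one_apply]

theorem Cc.inv (h : Cc r s c) (σ : Ω ≃ₐ[k] Ω) (hσ : σ s = s) : c σ⁻¹ = c σ := by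
  have h1 := h.add2 σ⁻¹ σ hσ
  rw [inv_mul_cancel, h.one] at h1
  exact z4_zero _ _ ((h.two σ).2 hσ) h1

theorem Cc.s_of (h : Cc r s c) {σ : Ω ≃ₐ[k] Ω} (hσ : c σ = 0) : σ s = s :=
  (h.two σ).1 (by rw [hσ, mul_zero])

theorem Cc.s_of2 (h : Cc r s c) {σ : Ω ≃ₐ[k] Ω} (hσ : c σ = 2) : σ s = s :=
  (h.two σ).1 (by rw [hσ]; exact z4_tt)

/-- the function of the first step -/
theorem Cc.theta [IsGalois k Ω] [CharZero Ω] (h : Cc r s c) : ∃ θ : Ω, θ ≠ 0 ∧
    (∀ σ : Ω ≃ₐ[k] Ω, c σ = 0 → σ θ = θ) ∧ ∀ σ : Ω ≃ₐ[k] Ω, c σ = 2 → σ θ = -θ := by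
  by_cases hex : ∃ τ : Ω ≃ₐ[k] Ω, c τ = 2
  swap
  · exact ⟨1, one_ne_zero, fun σ _ => map_one σ, fun σ hσ => absurd ⟨σ, hσ⟩ hex⟩
  obtain ⟨τ, hτ⟩ := hex
  have hτs := h.s_of2 hτ
  let H : Subgroup (Ω ≃ₐ[k] Ω) :=
    { carrier := {σ | c σ = 0}
      mul_mem' := by
        intro a b ha hb
        change c a = 0 at ha
        change c b = 0 at hb
        change c (a * b) = 0
        rw [h.add2 a b (h.s_of hb), ha, hb, add_zero]
      one_mem' := h.one
      inv_mem' := by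
        intro a ha
        change c a = 0 at ha
        change c a⁻¹ = 0
        rw [h.inv a (h.s_of ha), ha] }
  have hcl : IsClosed (H : Set (Ω ≃ₐ[k] Ω)) := h.lc.isClosed_fiber 0
  have hfix := InfiniteGalois.fixingSubgroup_fixedField (k := k) (K := Ω) ⟨H, hcl⟩
  have hnot : τ ∉ H := by
    intro hh
    have h1 : c τ = 0 := hh
    rw [hτ] at h1
    exact absurd h1 (by decide)
  have hnot2 : ¬ ∀ α ∈ IntermediateField.fixedField H, τ α = α := by
    intro hh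
    apply hnot
    have h1 : τ ∈ (IntermediateField.fixedField H).fixingSubgroup := by
      rw [IntermediateField.mem_fixingSubgroup_iff]
      exact hh
    rw [hfix] at h1
    exact h1
  push Not at hnot2
  obtain ⟨α, hα, hτα⟩ := hnot2
  rw [IntermediateField.mem_fixedField_iff] at hα
  have hα' : ∀ σ : Ω ≃ₐ[k] Ω, c σ = 0 → σ α = α := fun σ hσ => hα σ hσ
  refine ⟨α - τ α, sub_ne_zero.2 (Ne.symm hτα), ?_, ?_⟩
  · intro σ hσ
    have h1 : c (τ⁻¹ * (σ * τ)) = 0 := by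
      rw [h.add2 _ _ (by rw [AlgEquiv.mul_apply, hτs, h.s_of hσ]), h.inv τ hτs,
        h.add2 _ _ hτs, hσ, hτ, zero_add]
      exact z4_22
    have h2 := hα' _ h1
    have h3 : σ (τ α) = τ α := by
      have h4 := congrArg τ h2
      rw [← AlgEquiv.mul_apply, mul_inv_cancel_left, AlgEquiv.mul_apply] at h4
      exact h4
    rw [map_sub, hα' σ hσ, h3]
  · intro σ hσ
    have hσs := h.s_of2 hσ
    have h1 : c (σ * τ) = 0 := by
      rw [h.add2 _ _ hτs, hσ, hτ]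
      exact z4_22
    have h2 : σ (τ α) = α := by
      rw [← AlgEquiv.mul_apply]
      exact hα' _ h1
    have h3 : c (τ⁻¹ * σ) = 0 := by
      rw [h.add2 _ _ hσs, h.inv τ hτs, hσ, hτ]
      exact z4_22
    have h4 : σ α = τ α := by
      have h5 := congrArg τ (hα' _ h3)
      rw [← AlgEquiv.mul_apply, mul_inv_cancel_left] at h5
      exact h5
    rw [map_sub, h2, h4]
    ring

/-- The lemma in terms of the structure. -/
theorem Cc.main [IsGalois k Ω] [CharZero Ω] (h : Cc r s c) {m δ : k}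
    (hr : r ^ 2 = algebraMap k Ω m) (hs : s ^ 2 = algebraMap k Ω δ)
    {t : Ω ≃ₐ[k] Ω} (ht : t s = -s) :
    ∃ x y z : k, (x ≠ 0 ∨ y ≠ 0 ∨ z ≠ 0) ∧ x ^ 2 = δ * (y ^ 2 + m * z ^ 2) := by
  obtain ⟨θ, hθ0, hθ1, hθ2⟩ := h.theta
  have hr0 := h.r0
  have hs0 := h.s0
  have htne : t s ≠ s := by
    rw [ht]
    intro h1
    apply hs0
    have h2 : (2 : Ω) * s = 0 := by linear_combination -h1
    rcases mul_eq_zero.1 h2 with h3 | h3
    · exact absurd h3 two_ne_zero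
    · exact h3
  have hct : 2 * c t = 2 := z4_two _ (fun h1 => htne ((h.two t).1 h1))
  -- elements fixed by the stabilizer of `s` and by `t` are in the base field
  have key : ∀ f : Ω, (∀ σ : Ω ≃ₐ[k] Ω, σ s = s → σ f = f) → t f = f →
      ∃ g : k, algebraMap k Ω g = f := by
    intro f h1 h2
    have : f ∈ Set.range (algebraMap k Ω) := by
      rw [InfiniteGalois.mem_range_algebraMap_iff_fixed]
      intro σ
      rcases h.spm σ with h3 | h3
      · exact h1 σ h3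
      · have h4 : (t⁻¹ * σ) s = s := by
          rw [AlgEquiv.mul_apply, h3, ← ht, ← AlgEquiv.mul_apply, inv_mul_cancel,
            AlgEquiv.one_apply]
        have h5 := congrArg t (h1 _ h4)
        rw [← AlgEquiv.mul_apply, mul_inv_cancel_left, h2] at h5
        exact h5
    exact this
  -- conjugates of elements of the stabilizer of `s`
  have hconj : ∀ σ : Ω ≃ₐ[k] Ω, σ s = s → (t⁻¹ * (σ * t)) s = s := by
    intro σ hσ
    rw [AlgEquiv.mul_apply, AlgEquiv.mul_apply, ht, map_neg, hσ, ← ht, ← AlgEquiv.mul_apply,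
      inv_mul_cancel, AlgEquiv.one_apply]
  have hst : ∀ (σ : Ω ≃ₐ[k] Ω) (x : Ω), σ (t x) = t ((t⁻¹ * (σ * t)) x) := by
    intro σ x
    rw [← AlgEquiv.mul_apply, ← AlgEquiv.mul_apply, mul_inv_cancel_left]
  have hcc : ∀ σ : Ω ≃ₐ[k] Ω, σ s = s → c (σ * t) = c t + c (t⁻¹ * (σ * t)) := by
    intro σ hσ
    rw [← h.add2 _ _ (hconj σ hσ), mul_inv_cancel_left]
  have h2c : ∀ σ : Ω ≃ₐ[k] Ω, σ s = s → c σ = 0 ∨ c σ = 2 := fun σ hσ =>
    z4_cases _ ((h.two σ).2 hσ)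
  -- the product of `θ` and its conjugate
  set θ' := t θ with hθ'
  have hprod1 : ∀ σ : Ω ≃ₐ[k] Ω, σ s = s → σ r = r → σ (θ * θ') = θ * θ' := by
    intro σ hσ hσr
    have h1 : c (t⁻¹ * (σ * t)) = c σ := by
      have h2 := hcc σ hσ
      rw [h.pos σ t hσr, add_comm] at h2
      exact (add_left_cancel h2).symm
    rw [map_mul, hθ', hst σ θ]
    rcases h2c σ hσ with h3 | h3
    · rw [hθ1 σ h3, hθ1 _ (h1.trans h3)]
    · rw [hθ2 σ h3, hθ2 _ (h1.trans h3), map_neg]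
      ring
  have hprod2 : ∀ σ : Ω ≃ₐ[k] Ω, σ s = s → σ r = -r → σ (θ * θ') = -(θ * θ') := by
    intro σ hσ hσr
    have h1 : c (t⁻¹ * (σ * t)) = c σ + 2 := by
      have h2 := hcc σ hσ
      rw [h.neg σ t hσr] at h2
      have : ∀ a b x : ZMod 4, 2 * b = 2 → a - b = b + x → x = a + 2 := by decide
      exact this _ _ _ hct h2
    rw [map_mul, hθ', hst σ θ]
    rcases h2c σ hσ with h3 | h3
    · rw [hθ1 σ h3, hθ2 _ (by rw [h1, h3, zero_add]), map_neg]
      ring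
    · rw [hθ2 σ h3, hθ1 _ (by rw [h1, h3]; exact z4_22)]
      ring
  -- the square of `t`
  have htts : (t * t) s = s := by
    rw [AlgEquiv.mul_apply, ht, map_neg, ht, neg_neg]
  have htt : ∀ x : Ω, t (t x) = (t * t) x := fun x => rfl
  -- the element `f`
  have hf1 : ∀ σ : Ω ≃ₐ[k] Ω, σ s = s → σ (θ * θ' / r / s) = θ * θ' / r / s := by
    intro σ hσ
    rw [map_div₀, map_div₀, hσ]
    rcases h.rpm σ with h1 | h1
    · rw [hprod1 σ hσ h1, h1]
    · rw [hprod2 σ hσ h1, h1, neg_div_neg_eq]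
  have hf2 : t (θ * θ' / r / s) = θ * θ' / r / s := by
    rw [map_div₀, map_div₀, map_mul, ht, ← hθ']
    have hneg : t θ' / t r = -(θ / r) := by
      rcases h.rpm t with h1 | h1
      · have h2 : c (t * t) = 2 := by
          rw [h.pos t t h1, ← two_mul, hct]
        rw [hθ', htt, hθ2 _ h2, h1, neg_div]
      · have h2 : c (t * t) = 0 := by
          rw [h.neg t t h1, sub_self]
        rw [hθ', htt, hθ1 _ h2, h1, div_neg]
    rw [mul_div_assoc, hneg]
    field_simp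
  obtain ⟨f, hf⟩ := key _ hf1 hf2
  -- the elements `l₁` and `l₂`
  have hl : ∀ σ : Ω ≃ₐ[k] Ω, σ s = s → σ (θ ^ 2) = θ ^ 2 := by
    intro σ hσ
    rw [map_pow]
    rcases h2c σ hσ with h3 | h3
    · rw [hθ1 σ h3]
    · rw [hθ2 σ h3, neg_sq]
  have hl' : ∀ σ : Ω ≃ₐ[k] Ω, σ s = s → σ (θ' ^ 2) = θ' ^ 2 := by
    intro σ hσ
    rw [hθ', ← map_pow, hst σ, hl _ (hconj σ hσ)]
  have htl : t (θ ^ 2) = θ' ^ 2 := by rw [map_pow]
  have htl' : t (θ' ^ 2) = θ ^ 2 := by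
    rw [hθ', ← map_pow, htt, hl _ htts]
  obtain ⟨l1, hl1⟩ := key ((θ ^ 2 + θ' ^ 2) / 2) (by
    intro σ hσ
    rw [map_div₀, map_add, hl σ hσ, hl' σ hσ, map_ofNat]) (by
    rw [map_div₀, map_add, htl, htl', map_ofNat, add_comm])
  obtain ⟨l2, hl2⟩ := key ((θ ^ 2 - θ' ^ 2) / 2 / s) (by
    intro σ hσ
    rw [map_div₀, map_div₀, map_sub, hl σ hσ, hl' σ hσ, map_ofNat, hσ]) (by
    rw [map_div₀, map_div₀, map_sub, htl, htl', map_ofNat, ht]
    field_simp
    ring)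
  refine ⟨l1, l2, f, ?_, ?_⟩
  · by_contra hcon
    push Not at hcon
    obtain ⟨e1, e2, -⟩ := hcon
    rw [e1, map_zero] at hl1
    rw [e2, map_zero] at hl2
    apply hθ0
    have h1 : θ ^ 2 + θ' ^ 2 = 0 := by
      field_simp at hl1
      linear_combination -hl1
    have h2 : θ ^ 2 - θ' ^ 2 = 0 := by
      field_simp at hl2
      linear_combination -hl2
    have h3 : (2 : Ω) * θ ^ 2 = 0 := by linear_combination h1 + h2
    have h4 : θ ^ 2 = 0 := by
      rcases mul_eq_zero.1 h3 with h5 | h5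
      · exact absurd h5 two_ne_zero
      · exact h5
    exact pow_eq_zero_iff (two_ne_zero) |>.1 h4
  · apply (algebraMap k Ω).injective
    rw [map_pow, map_mul, map_add, map_pow, map_mul, map_pow, hl1, hl2, hf, ← hr, ← hs]
    field_simp
    ring

end

/-- The Galois lemma on cocycles modulo four. -/
theorem normg : ∀ (k Ω : Type) [Field k] [Field Ω] [Algebra k Ω] [IsGalois k Ω] [CharZero k]
    (m δ : k) (r s : Ω), m ≠ 0 → δ ≠ 0 → r ^ 2 = algebraMap k Ω m → s ^ 2 = algebraMap k Ω δ →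
    ∀ c : (Ω ≃ₐ[k] Ω) → ZMod 4, IsLocallyConstant c →
    (∀ σ τ, σ r = r → c (σ * τ) = c σ + c τ) →
    (∀ σ τ, σ r = -r → c (σ * τ) = c σ - c τ) →
    (∀ σ, (2 * c σ = 0 ↔ σ s = s)) →
    ∃ x y z : k, (x ≠ 0 ∨ y ≠ 0 ∨ z ≠ 0) ∧ x ^ 2 = δ * (y ^ 2 + m * z ^ 2) := by
  intro k Ω _ _ _ _ _ m δ r s hm hδ hr hs c hlc hpos hneg htwo
  have : CharZero Ω := charZero_of_injective_algebraMap (algebraMap k Ω).injective
  have hpm : ∀ (x : Ω) (a : k), x ^ 2 = algebraMap k Ω a → ∀ σ : Ω ≃ₐ[k] Ω,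
      σ x = x ∨ σ x = -x := by
    intro x a hx σ
    rw [← sq_eq_sq_iff_eq_or_eq_neg, ← map_pow, hx, σ.commutes]
  have h : Cc r s c :=
    { lc := hlc
      pos := hpos
      neg := hneg
      two := htwo
      rpm := hpm r m hr
      spm := hpm s δ hs
      r0 := by
        rintro rfl
        apply hm
        apply (algebraMap k Ω).injective
        rw [← hr, map_zero]
        ring
      s0 := by
        rintro rfl
        apply hδ
        apply (algebraMap k Ω).injective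
        rw [← hs, map_zero]
        ring }
  by_cases hall : ∀ σ : Ω ≃ₐ[k] Ω, σ s = s
  · obtain ⟨s0, hs0⟩ := (InfiniteGalois.mem_range_algebraMap_iff_fixed s).2 hall
    refine ⟨s0, 1, 0, Or.inr (Or.inl one_ne_zero), ?_⟩
    apply (algebraMap k Ω).injective
    rw [map_pow, hs0, hs]
    congr 1
    ring
  · push Not at hall
    obtain ⟨t, ht⟩ := hall
    exact h.main hr hs ((h.spm t).resolve_left ht)

end Pool.Agent.K3h59.DM
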