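import Pool.Agent.K3h12.DM.Stm
import Pool.Agent.K3h59.DM.Gal4

/-!
# The brick NORMG
-/

set_option autoImplicit false
set_option maxHeartbeats 400000

namespace Pool.Agent.K3h59.DM

/-- A cocycle modulo four with values in the twist by the quadratic character of `m` gives a
solution of a quadratic equation. -/
theorem t_NORMG : Pool.Agent.K3h12.DM.S_NORMG := normg

end Pool.Agent.K3h59.DM
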